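import Pool.Agent.XD.Defs

/-!
# XDP: sharper exponents for constant depth: definitions

The letters are the pairs `(i, c)` of a row and a column.  The type of a letter is the type of its
row.  The hard polynomial is the permanent with a sign at every permutation; the sign is a product
of signs `-1` for pairs of columns which are both used by rows of type `true`.
-/

set_option autoImplicit false

namespace Pool.XDP

open Finset

section defs

variable {d : ℕ}

/-- the type of a letter is the type of its row -/
def tyr (ty : Fin d → Bool) (l : Fin d × Fin d) : Bool := ty l.1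

/-- is the column `c` used by a row of type `true`? -/
def bit (ty : Fin d → Bool) (π : Equiv.Perm (Fin d)) (c : Fin d) : Bool := ty (π.symm c)

/-- the sign of a permutation given by a list of pairs of columns -/
def sgn {M : ℕ} (ty : Fin d → Bool) (φ : Fin M → Fin d × Fin d) (π : Equiv.Perm (Fin d)) : ℤ :=
  ∏ m, if (φ m).1 ≠ (φ m).2 ∧ bit ty π (φ m).1 = true ∧ bit ty π (φ m).2 = true then -1 else 1

/-- the permanent with the sign `s π` at the permutation `π` -/
noncomputable def sper (s : Equiv.Perm (Fin d) → ℤ) (R : Type) [CommRing R] :
    MvPolynomial (Fin d × Fin d) R :=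
  ∑ π : Equiv.Perm (Fin d), MvPolynomial.C ((s π : ℤ) : R) * ∏ i, MvPolynomial.X (i, π i)

/-- the number of rows of type `true` with `σ = false` -/
def k0 (ty σ : Fin d → Bool) : ℕ := (univ.filter fun i => ty i = true ∧ σ i = false).card

/-- the number of rows of type `false` with `σ = true` -/
def k1 (ty σ : Fin d → Bool) : ℕ := (univ.filter fun i => ty i = false ∧ σ i = true).card

/-- the number of rows of type `true` with `σ = true` -/
def kU (ty σ : Fin d → Bool) : ℕ := (univ.filter fun i => ty i = true ∧ σ i = true).card

/-- the columns where the bits differ, in the image of `σ` (`b = true`) or of its complement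
(`b = false`) -/
def dif (ty σ : Fin d → Bool) (π π' : Equiv.Perm (Fin d)) (b : Bool) : ℕ :=
  (univ.filter fun c => σ (π.symm c) = b ∧ bit ty π c ≠ bit ty π' c).card

/-- the average sign of a cycle -/
noncomputable def avs (ty σ : Fin d → Bool) (π π' : Equiv.Perm (Fin d)) : ℝ :=
  1 - 4 * (dif ty σ π π' true : ℝ) * (dif ty σ π π' false : ℝ) / (d : ℝ) ^ 2

end defs

end Pool.XDP
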